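import Pool.Agent.K1H26.Cheeger.Upper

set_option autoImplicit false

namespace Pool.Agent.K1H26.Cheeger

open MeasureTheory Set

theorem D2_one_vol : volume {p : ℝ × ℝ | p.1 ^ 2 + p.2 ^ 2 < 1} = ENNReal.ofReal Real.pi := by
  have h1 : φ ⁻¹' (Metric.ball (0 : Plane) 1) = {p : ℝ × ℝ | p.1 ^ 2 + p.2 ^ 2 < 1} := by
    ext p
    rw [mem_preimage, mem_ball_zero_iff, EuclideanSpace.norm_eq, Fin.sum_univ_two, Real.norm_eq_abs,
      Real.norm_eq_abs, sq_abs, sq_abs, Real.sqrt_lt' one_pos, one_pow]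
    simp [φ]
  rw [← h1, φ_mp.measure_preimage Metric.isOpen_ball.measurableSet.nullMeasurableSet,
    EuclideanSpace.volume_ball_fin_two]
  simp

/-- the two caps on the left and on the right -/
def cap : Set (ℝ × ℝ) := {p | p.1 ^ 2 + p.2 ^ 2 < 1 ∧ 23 / 25 ≤ |p.1|}

theorem cap_half : ∫ x in (23 / 25 : ℝ)..1, Real.sqrt (2 * (1 - x)) = 8 / 375 := by
  have h : ∀ x ∈ uIcc (23 / 25 : ℝ) 1, Real.sqrt (2 * (1 - x)) = (2 - 2 * x) ^ (1 / 2 : ℝ) := by
    intro x _
    rw [Real.sqrt_eq_rpow]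
    congr 1
    ring
  rw [intervalIntegral.integral_congr h]
  have h2 : ∫ x in (23 / 25 : ℝ)..1, (2 - 2 * x) ^ (1 / 2 : ℝ) =
      (2 : ℝ)⁻¹ • ∫ x in (2 - 2 * 1 : ℝ)..(2 - 2 * (23 / 25)), x ^ (1 / 2 : ℝ) :=
    intervalIntegral.integral_comp_sub_mul (fun x : ℝ => x ^ (1 / 2 : ℝ)) (by norm_num) 2
  rw [h2, integral_rpow (Or.inl (by norm_num))]
  have h3 : (2 - 2 * (23 / 25) : ℝ) ^ (1 / 2 + 1 : ℝ) = 8 / 125 := by
    have e1 : (2 - 2 * (23 / 25) : ℝ) = (2 / 5) ^ (2 : ℝ) := by norm_num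
    rw [e1, ← Real.rpow_mul (by norm_num)]
    norm_num
  have h4 : (2 - 2 * 1 : ℝ) ^ (1 / 2 + 1 : ℝ) = 0 := by
    norm_num
  rw [h3, h4]
  norm_num

theorem cap_vol : volume cap ≤ ENNReal.ofReal (32 / 375) := by
  have hcon : Continuous fun x : ℝ => Real.sqrt (2 * (1 - |x|)) := by fun_prop
  have hsub : cap ⊆ regionBetween (fun x => -Real.sqrt (2 * (1 - |x|)))
      (fun x => Real.sqrt (2 * (1 - |x|))) (Icc (23 / 25) 1) ∪
      regionBetween (fun x => -Real.sqrt (2 * (1 - |x|)))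
      (fun x => Real.sqrt (2 * (1 - |x|))) (Icc (-1) (-(23 / 25))) := by
    rintro ⟨x, y⟩ ⟨h1, h2⟩
    simp only at h1 h2
    have hx1 : |x| < 1 := by
      rw [← sq_lt_one_iff_abs_lt_one]; nlinarith [sq_nonneg y]
    have hy : |y| < Real.sqrt (2 * (1 - |x|)) := by
      rw [Real.lt_sqrt (abs_nonneg y), sq_abs]
      nlinarith [sq_abs x, abs_nonneg x]
    have hy' := abs_lt.1 hy
    rcases le_total 0 x with hx | hx
    · left
      refine ⟨⟨?_, ?_⟩, ⟨?_, ?_⟩⟩
      · rwa [abs_of_nonneg hx] at h2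
      · rw [abs_of_nonneg hx] at hx1; exact hx1.le
      · exact hy'.1
      · exact hy'.2
    · right
      rw [abs_of_nonpos hx] at h2 hx1
      refine ⟨⟨?_, ?_⟩, ⟨?_, ?_⟩⟩
      · show -1 ≤ x; linarith
      · show x ≤ _; linarith
      · exact hy'.1
      · exact hy'.2
  have hint1 : ∫ x in Icc (23 / 25 : ℝ) 1, ((fun x => Real.sqrt (2 * (1 - |x|))) -
      fun x => -Real.sqrt (2 * (1 - |x|))) x = 16 / 375 := by
    have e : ∀ x ∈ Icc (23 / 25 : ℝ) 1, ((fun x => Real.sqrt (2 * (1 - |x|))) -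
      fun x => -Real.sqrt (2 * (1 - |x|))) x = 2 * Real.sqrt (2 * (1 - x)) := by
      intro x hx
      have : |x| = x := abs_of_nonneg (by linarith [hx.1])
      simp only [Pi.sub_apply, this]
      ring
    rw [setIntegral_congr_fun measurableSet_Icc e, integral_Icc_eq_integral_Ioc,
      ← intervalIntegral.integral_of_le (by norm_num), intervalIntegral.integral_const_mul, cap_half]
    norm_num
  have hint2 : ∫ x in Icc (-1 : ℝ) (-(23 / 25)), ((fun x => Real.sqrt (2 * (1 - |x|))) -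
      fun x => -Real.sqrt (2 * (1 - |x|))) x = 16 / 375 := by
    have e : ∀ x ∈ Icc (-1 : ℝ) (-(23 / 25)), ((fun x => Real.sqrt (2 * (1 - |x|))) -
      fun x => -Real.sqrt (2 * (1 - |x|))) x = 2 * Real.sqrt (2 * (1 - (-x))) := by
      intro x hx
      have : |x| = -x := abs_of_nonpos (by linarith [hx.2])
      simp only [Pi.sub_apply, this]
      ring
    rw [setIntegral_congr_fun measurableSet_Icc e, integral_Icc_eq_integral_Ioc,
      ← intervalIntegral.integral_of_le (by norm_num), intervalIntegral.integral_const_mul,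
      intervalIntegral.integral_comp_neg (fun x => Real.sqrt (2 * (1 - x))), neg_neg, neg_neg, cap_half]
    norm_num
  have hv : ∀ s : Set ℝ, MeasurableSet s → IsCompact s → (∀ x ∈ s, |x| ≤ 1) →
      volume (regionBetween (fun x => -Real.sqrt (2 * (1 - |x|)))
      (fun x => Real.sqrt (2 * (1 - |x|))) s) = ENNReal.ofReal (∫ x in s,
        ((fun x => Real.sqrt (2 * (1 - |x|))) - fun x => -Real.sqrt (2 * (1 - |x|))) x) := by
    intro s hs hs2 _
    apply volume_regionBetween_eq_integral (hcon.neg.continuousOn.integrableOn_compact hs2)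
      (hcon.continuousOn.integrableOn_compact hs2) hs
    intro x _
    have := Real.sqrt_nonneg (2 * (1 - |x|))
    show -Real.sqrt (2 * (1 - |x|)) ≤ Real.sqrt (2 * (1 - |x|))
    linarith
  calc volume cap ≤ _ := measure_mono hsub
    _ ≤ _ := measure_union_le _ _
    _ = ENNReal.ofReal (16 / 375) + ENNReal.ofReal (16 / 375) := by
        rw [hv _ measurableSet_Icc isCompact_Icc (fun x hx => abs_le.2 ⟨by linarith [hx.1], hx.2⟩),
          hv _ measurableSet_Icc isCompact_Icc (fun x hx => abs_le.2 ⟨hx.1, by linarith [hx.2]⟩),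
          hint1, hint2]
    _ = ENNReal.ofReal (32 / 375) := by
        rw [← ENNReal.ofReal_add (by norm_num) (by norm_num)]
        norm_num

theorem cap_swap_vol : volume (Prod.swap ⁻¹' cap) = volume cap := by
  have h1 : MeasurePreserving (Prod.swap : ℝ × ℝ → ℝ × ℝ) volume volume :=
    Measure.measurePreserving_swap
  apply h1.measure_preimage
  have h2 : MeasurableSet cap := by
    have h3 : IsOpen {p : ℝ × ℝ | p.1 ^ 2 + p.2 ^ 2 < 1} := isOpen_lt (by fun_prop) (by fun_prop)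
    have h4 : IsClosed {p : ℝ × ℝ | 23 / 25 ≤ |p.1|} := isClosed_le continuous_const continuous_fst.abs
    exact h3.measurableSet.inter h4.measurableSet
  exact h2.nullMeasurableSet

/-- the area of the test set -/
theorem T_area : ENNReal.ofReal (Real.pi - 64 / 375) ≤ volume (T (23 / 25)) := by
  rw [T_vol]
  have h1 : {p : ℝ × ℝ | p.1 ^ 2 + p.2 ^ 2 < 1} ⊆ D2 (23 / 25) ∪ (cap ∪ Prod.swap ⁻¹' cap) := by
    rintro ⟨x, y⟩ h
    have h : x ^ 2 + y ^ 2 < 1 := h
    by_cases hx : |x| < 23 / 25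
    · by_cases hy : |y| < 23 / 25
      · left; exact ⟨h, hx, hy⟩
      · right; right
        exact ⟨by show y ^ 2 + x ^ 2 < 1; linarith, not_lt.1 hy⟩
    · right; left
      exact ⟨h, not_lt.1 hx⟩
  have h2 := (measure_mono h1).trans ((measure_union_le _ _).trans
    (add_le_add_right (measure_union_le _ _) (volume (D2 (23 / 25)))))
  rw [cap_swap_vol, D2_one_vol] at h2
  have h3 : volume cap + volume cap ≤ ENNReal.ofReal (64 / 375) := by
    calc volume cap + volume cap ≤ ENNReal.ofReal (32 / 375) + ENNReal.ofReal (32 / 375) :=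
          add_le_add cap_vol cap_vol
      _ = _ := by
          rw [← ENNReal.ofReal_add (by norm_num) (by norm_num)]
          norm_num
  rw [ENNReal.ofReal_sub _ (by norm_num)]
  rw [tsub_le_iff_right]
  exact h2.trans (by gcongr)

/-- the Cheeger constant of bodies inside the square -/
theorem cheeger_le {K : Set Plane} (hK : ∀ x ∈ K, |x 0| ≤ 1 ∧ |x 1| ≤ 1) :
    cheeger K disk ≤ ENNReal.ofReal ((184 / 25) / (Real.pi - 64 / 375)) := by
  have hpi := Real.pi_gt_three
  have hA : 0 < Real.pi - 64 / 375 := by linarith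
  have h0 : 0 < volume (T (23 / 25)) := lt_of_lt_of_le (ENNReal.ofReal_pos.2 hA) T_area
  unfold cheeger
  refine iInf_le_of_le (T (23 / 25)) (iInf_le_of_le (T_open _).measurableSet
    (iInf_le_of_le (T_sub _) (iInf_le_of_le h0 ?_)))
  calc perim K (T (23 / 25)) / volume (T (23 / 25)) ≤
      ENNReal.ofReal (184 / 25) / ENNReal.ofReal (Real.pi - 64 / 375) := by
        apply ENNReal.div_le_div _ T_area
        refine (perim_le (by norm_num) (by norm_num) hK).trans (le_of_eq ?_)
        norm_num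
    _ = _ := (ENNReal.ofReal_div_of_pos hA).symm

end Pool.Agent.K1H26.Cheeger
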