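import Mathlib

/-! Anisotropic perimeter, Cheeger constant and the functional `J`. -/

set_option autoImplicit false

namespace Pool.Agent.K1H26.Cheeger

open MeasureTheory Set

/-- the plane -/
abbrev Plane := EuclideanSpace ℝ (Fin 2)

/-- the divergence of a vector field -/
noncomputable def div (V : Plane → Plane) (x : Plane) : ℝ :=
  ∑ i : Fin 2, (fderiv ℝ V x (EuclideanSpace.single i 1)) i

/-- the anisotropic perimeter `P_K(E)` -/
noncomputable def perim (K E : Set Plane) : ENNReal :=
  ⨆ (V : Plane → Plane) (_ : ContDiff ℝ 1 V) (_ : HasCompactSupport V) (_ : ∀ x, V x ∈ K),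
    ENNReal.ofReal (∫ x in E, div V x)

/-- the anisotropic Cheeger constant `h_K(Ω)` -/
noncomputable def cheeger (K Ω : Set Plane) : ENNReal :=
  ⨅ (E : Set Plane) (_ : MeasurableSet E) (_ : E ⊆ Ω) (_ : 0 < volume E), perim K E / volume E

/-- the polar set `K°` -/
def polar (K : Set Plane) : Set Plane := {x | sSup ((fun y => inner ℝ x y) '' K) < 1}

/-- the functional `J_Ω[K] = h_K(Ω) |K°|^(1/2)` -/
noncomputable def J (Ω K : Set Plane) : ENNReal :=
  cheeger K Ω * volume (polar K) ^ (1 / 2 : ℝ)

/-- the class `𝒦₂` -/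
structure IsBody (K : Set Plane) : Prop where
  nonempty : K.Nonempty
  isOpen : IsOpen K
  bounded : Bornology.IsBounded K
  convex : Convex ℝ K
  symm : ∀ x ∈ K, -x ∈ K

/-- the class `𝒫_n` of the polygons in `𝒦₂` with exactly `n` sides, that is with `n` vertices -/
structure IsPoly (n : ℕ) (K : Set Plane) : Prop extends IsBody K where
  vertices : ((closure K).extremePoints ℝ).encard = n

/-- the point `(cos φ, sin φ)` -/
noncomputable def dir (φ : ℝ) : Plane := !₂[Real.cos φ, Real.sin φ]

/-- the regular `n`-gon circumscribed about the unit disk -/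
def regular (n : ℕ) : Set Plane := {x | ∀ k < n, inner ℝ x (dir (2 * Real.pi * k / n)) < 1}

/-- the open unit disk -/
def disk : Set Plane := Metric.ball 0 1

end Pool.Agent.K1H26.Cheeger
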