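import Pool.Agent.K1H26.Cheeger.Defs

set_option autoImplicit false

namespace Pool.Agent.K1H26.Cheeger

open MeasureTheory Set

/-- the trivial calibration -/
theorem two_le_cheeger {K : Set Plane} (hK : disk ⊆ K) : 2 ≤ cheeger K disk := by
  unfold cheeger
  refine le_iInf fun E => le_iInf fun hE => le_iInf fun hEd => le_iInf fun hE0 => ?_
  have hfin : volume E < ⊤ := lt_of_le_of_lt (measure_mono hEd) (by
    unfold disk; exact measure_ball_lt_top)
  rw [ENNReal.le_div_iff_mul_le (Or.inl hE0.ne') (Or.inl hfin.ne)]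
  have key : ∀ c : ℝ, 0 < c → c < 1 → ENNReal.ofReal (2 * c) * volume E ≤ perim K E := by
    intro c hc0 hc1
    have hR : (1 : ℝ) < c⁻¹ := (one_lt_inv₀ hc0).2 hc1
    let f : ContDiffBump (0 : Plane) := ⟨1, c⁻¹, one_pos, hR⟩
    let V : Plane → Plane := fun x => (c * f x) • x
    have hV1 : ContDiff ℝ 1 V := by
      have := f.contDiff (n := 1)
      exact (contDiff_const.mul this).smul contDiff_id
    have hV2 : HasCompactSupport V := by
      have h := f.hasCompactSupport
      have h2 : HasCompactSupport (fun x => c * f x) := h.mul_left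
      exact h2.smul_right
    have hV3 : ∀ x, V x ∈ K := by
      intro x
      apply hK
      unfold disk
      rw [mem_ball_zero_iff]
      show ‖(c * f x) • x‖ < 1
      rw [norm_smul, Real.norm_eq_abs, abs_mul, abs_of_pos hc0]
      by_cases hx : ‖x‖ < c⁻¹
      · have h1 : |f x| ≤ 1 := by
          rw [abs_of_nonneg f.nonneg]; exact f.le_one
        calc c * |f x| * ‖x‖ ≤ c * 1 * ‖x‖ := by gcongr
          _ < c * 1 * c⁻¹ := by gcongr
          _ = 1 := by field_simp
      · have : f x = 0 := f.zero_of_le_dist (by rw [dist_zero_right]; exact not_lt.1 hx)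
        rw [this]; simp
    have hdiv : ∀ x ∈ E, div V x = 2 * c := by
      intro x hx
      have hx1 : x ∈ Metric.ball (0 : Plane) 1 := hEd hx
      have hev : V =ᶠ[nhds x] fun y => c • y := by
        filter_upwards [Metric.isOpen_ball.mem_nhds hx1] with y hy
        show (c * f y) • y = c • y
        have : f y = 1 := f.one_of_mem_closedBall (Metric.ball_subset_closedBall hy)
        rw [this, mul_one]
      have hfd : fderiv ℝ V x = c • ContinuousLinearMap.id ℝ Plane := by
        rw [hev.fderiv_eq]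
        have : (fun y : Plane => c • y) = (c • ContinuousLinearMap.id ℝ Plane : Plane →L[ℝ] Plane) := by
          ext y; simp
        rw [this, ContinuousLinearMap.fderiv]
      unfold div
      rw [hfd, Fin.sum_univ_two]
      simp
      ring
    have hint : ∫ x in E, div V x = 2 * c * (volume E).toReal := by
      rw [setIntegral_congr_fun hE hdiv, setIntegral_const, smul_eq_mul, Measure.real, mul_comm]
    calc ENNReal.ofReal (2 * c) * volume E = ENNReal.ofReal (2 * c * (volume E).toReal) := by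
          rw [ENNReal.ofReal_mul (p := 2 * c) (by positivity), ENNReal.ofReal_toReal hfin.ne]
      _ = ENNReal.ofReal (∫ x in E, div V x) := by rw [hint]
      _ ≤ perim K E := by
          unfold perim
          exact le_iSup_of_le V (le_iSup_of_le hV1 (le_iSup_of_le hV2 (le_iSup_of_le hV3 le_rfl)))
  have hlim : Filter.Tendsto (fun c : ℝ => ENNReal.ofReal (2 * c) * volume E) (nhdsWithin 1 (Iio 1))
      (nhds (ENNReal.ofReal (2 * 1) * volume E)) := by
    apply ENNReal.Tendsto.mul_const _ (Or.inr hfin.ne)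
    apply ENNReal.tendsto_ofReal
    exact (tendsto_const_nhds.mul Filter.tendsto_id).mono_left nhdsWithin_le_nhds
  have h2 : ENNReal.ofReal (2 * 1) = 2 := by norm_num
  rw [h2] at hlim
  refine le_of_tendsto hlim ?_
  have h3 : ∀ᶠ c : ℝ in nhdsWithin 1 (Iio 1), 0 < c ∧ c < 1 := by
    have h4 : ∀ᶠ c : ℝ in nhdsWithin 1 (Iio 1), 0 < c :=
      nhdsWithin_le_nhds (lt_mem_nhds one_pos)
    filter_upwards [h4, self_mem_nhdsWithin] with c h5 h6
    exact ⟨h5, h6⟩
  filter_upwards [h3] with c hc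
  exact key c hc.1 hc.2

theorem inner_dir (x : Plane) (φ : ℝ) : inner ℝ x (dir φ) = x 0 * Real.cos φ + x 1 * Real.sin φ := by
  unfold dir
  rw [PiLp.inner_apply]
  simp [Fin.sum_univ_two]
  ring

/-- the regular polygon contains the disk -/
theorem disk_subset_regular (n : ℕ) : disk ⊆ regular n := by
  intro x hx k _
  unfold disk at hx
  rw [mem_ball_zero_iff] at hx
  have h1 : ‖dir (2 * Real.pi * k / n)‖ = 1 := by
    have h2 : ‖dir (2 * Real.pi * k / n)‖ ^ 2 = 1 := by
      rw [← real_inner_self_eq_norm_sq, inner_dir]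
      unfold dir
      simp
      nlinarith [Real.sin_sq_add_cos_sq (2 * Real.pi * k / n)]
    nlinarith [norm_nonneg (dir (2 * Real.pi * k / n))]
  calc inner ℝ x (dir (2 * Real.pi * k / n)) ≤ ‖x‖ * ‖dir (2 * Real.pi * k / n)‖ :=
        real_inner_le_norm _ _
    _ = ‖x‖ := by rw [h1, mul_one]
    _ < 1 := hx

/-- polar coordinates -/
theorem exists_angle (x : Plane) : ∃ φ : ℝ, x 0 = ‖x‖ * Real.cos φ ∧ x 1 = ‖x‖ * Real.sin φ := by
  refine ⟨Complex.arg ⟨x 0, x 1⟩, ?_⟩
  have hn : ‖(⟨x 0, x 1⟩ : ℂ)‖ = ‖x‖ := by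
    rw [EuclideanSpace.norm_eq, Fin.sum_univ_two, Complex.norm_def, Complex.normSq_mk]
    congr 1
    simp [sq]
  have h1 := Complex.norm_mul_cos_arg ⟨x 0, x 1⟩
  have h2 := Complex.norm_mul_sin_arg ⟨x 0, x 1⟩
  rw [hn] at h1 h2
  exact ⟨h1.symm, h2.symm⟩

theorem regular_norm {n : ℕ} (hn : 3 ≤ n) {x : Plane} (hx : x ∈ regular n) :
    ‖x‖ * Real.cos (Real.pi / n) ≤ 1 := by
  have hn0 : (0 : ℝ) < n := by exact_mod_cast (by omega : 0 < n)
  obtain ⟨φ, h0, h1⟩ := exists_angle x
  -- the nearest multiple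
  obtain ⟨z, hz⟩ : ∃ z : ℤ, z = round (φ * n / (2 * Real.pi)) := ⟨_, rfl⟩
  have hpi := Real.pi_pos
  have hz1 : |φ * n / (2 * Real.pi) - z| ≤ 1 / 2 := by rw [hz]; exact abs_sub_round _
  have hz2 : |φ - 2 * Real.pi * z / n| ≤ Real.pi / n := by
    have e : φ - 2 * Real.pi * z / n = (φ * n / (2 * Real.pi) - z) * (2 * Real.pi / n) := by
      field_simp
    rw [e, abs_mul, abs_of_pos (by positivity : 0 < 2 * Real.pi / n)]
    calc |φ * n / (2 * Real.pi) - z| * (2 * Real.pi / n) ≤ 1 / 2 * (2 * Real.pi / n) := by gcongr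
      _ = Real.pi / n := by ring
  -- reduce modulo n
  obtain ⟨k, hk⟩ : ∃ k : ℕ, (k : ℤ) = z % n := by
    refine ⟨(z % n).toNat, Int.toNat_of_nonneg (Int.emod_nonneg _ (by omega))⟩
  have hkn : k < n := by
    have := Int.emod_lt_of_pos z (by omega : (0 : ℤ) < n)
    omega
  have hzk : (z : ℝ) = k + n * ((z / n : ℤ) : ℝ) := by
    have h3 := Int.emod_add_mul_ediv z n
    rw [← hk] at h3
    exact_mod_cast h3.symm
  have hcos : Real.cos (φ - 2 * Real.pi * z / n) = Real.cos (φ - 2 * Real.pi * k / n) := by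
    rw [hzk]
    have e : φ - 2 * Real.pi * (k + n * ((z / n : ℤ) : ℝ)) / n =
        φ - 2 * Real.pi * k / n - ((z / n : ℤ) : ℝ) * (2 * Real.pi) := by
      field_simp
      ring
    rw [e, Real.cos_sub_int_mul_two_pi]
  have h4 : Real.cos (Real.pi / n) ≤ Real.cos (φ - 2 * Real.pi * z / n) := by
    rw [← Real.cos_abs (φ - 2 * Real.pi * z / n)]
    apply Real.cos_le_cos_of_nonneg_of_le_pi (abs_nonneg _) _ hz2
    exact div_le_self hpi.le (by exact_mod_cast (by omega : 1 ≤ n))
  have h5 := hx k hkn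
  rw [inner_dir, h0, h1] at h5
  have h6 : ‖x‖ * Real.cos (φ - 2 * Real.pi * k / n) < 1 := by
    rw [Real.cos_sub]
    linarith
  calc ‖x‖ * Real.cos (Real.pi / n) ≤ ‖x‖ * Real.cos (φ - 2 * Real.pi * z / n) :=
        mul_le_mul_of_nonneg_left h4 (norm_nonneg _)
    _ ≤ 1 := by rw [hcos]; exact h6.le

theorem cos_pos {n : ℕ} (hn : 3 ≤ n) : 0 < Real.cos (Real.pi / n) := by
  have hn0 : (3 : ℝ) ≤ n := by exact_mod_cast hn
  apply Real.cos_pos_of_mem_Ioo
  have hpi := Real.pi_pos
  constructor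
  · have : 0 < Real.pi / n := by positivity
    linarith
  · exact div_lt_div_of_pos_left hpi (by norm_num) (by linarith)

/-- the polar set of the regular polygon contains a disk -/
theorem ball_subset_polar {n : ℕ} (hn : 3 ≤ n) :
    Metric.ball (0 : Plane) (Real.cos (Real.pi / n)) ⊆ polar (regular n) := by
  intro y hy
  rw [mem_ball_zero_iff] at hy
  have hc := cos_pos hn
  unfold polar
  rw [Set.mem_ofPred_eq]
  have h1 : sSup ((fun z => inner ℝ y z) '' regular n) ≤ ‖y‖ / Real.cos (Real.pi / n) := by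
    apply csSup_le
    · exact ⟨_, 0, disk_subset_regular n (by unfold disk; simp), rfl⟩
    · rintro _ ⟨z, hz, rfl⟩
      have h2 := regular_norm hn hz
      rw [le_div_iff₀ hc]
      have h3 : inner ℝ y z ≤ ‖y‖ * ‖z‖ := real_inner_le_norm _ _
      calc inner ℝ y z * Real.cos (Real.pi / n) ≤ ‖y‖ * ‖z‖ * Real.cos (Real.pi / n) := by gcongr
        _ = ‖y‖ * (‖z‖ * Real.cos (Real.pi / n)) := by ring
        _ ≤ ‖y‖ * 1 := by gcongr
        _ = ‖y‖ := mul_one _
  refine lt_of_le_of_lt h1 ?_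
  rw [div_lt_one hc]
  exact hy

theorem J_regular {n : ℕ} (hn : 3 ≤ n) :
    ENNReal.ofReal (2 * Real.sqrt (Real.pi * Real.cos (Real.pi / n) ^ 2)) ≤ J disk (regular n) := by
  unfold J
  have h1 := two_le_cheeger (disk_subset_regular n)
  have h2 : ENNReal.ofReal (Real.pi * Real.cos (Real.pi / n) ^ 2) ≤ volume (polar (regular n)) := by
    refine le_trans (le_of_eq ?_) (measure_mono (ball_subset_polar hn))
    rw [EuclideanSpace.volume_ball_fin_two, ← ENNReal.ofReal_pow (cos_pos hn).le,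
      ← ENNReal.ofReal_mul (by positivity), mul_comm]
  calc ENNReal.ofReal (2 * Real.sqrt (Real.pi * Real.cos (Real.pi / n) ^ 2)) =
      2 * ENNReal.ofReal (Real.pi * Real.cos (Real.pi / n) ^ 2) ^ (1 / 2 : ℝ) := by
        rw [ENNReal.ofReal_mul (by norm_num), Real.sqrt_eq_rpow,
          ENNReal.ofReal_rpow_of_nonneg (by positivity) (by norm_num)]
        norm_num
    _ ≤ _ := by gcongr

end Pool.Agent.K1H26.Cheeger
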