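import Pool.Agent.K1H26.Cheeger.Poly
import Pool.Agent.K1H26.Cheeger.Lower

set_option autoImplicit false

namespace Pool.Agent.K1H26.Cheeger

open MeasureTheory Set

theorem pt_mem {m j : ℕ} (hj : j < m) : pt m j ∈ H m :=
  subset_convexHull ℝ _ (mem_S.2 ⟨j, hj, Or.inl rfl⟩)

theorem zero_mem {m : ℕ} (hm : 0 < m) : (0 : Plane) ∈ H m := by
  have h1 := pt_mem hm
  have h2 := H_neg h1
  have h3 := H_convex m h1 h2 (by norm_num : (0 : ℝ) ≤ 1 / 2) (by norm_num : (0 : ℝ) ≤ 1 / 2)
    (by norm_num)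
  simpa using h3

theorem comb_mem {m : ℕ} (hm : 0 < m) {u v : Plane} (hu : u ∈ H m) (hv : v ∈ H m) {α β : ℝ}
    (h : |α| + |β| ≤ 1) : α • u + β • v ∈ H m := by
  have key : ∀ (w : Plane) (γ : ℝ), w ∈ H m → ∃ w' ∈ H m, γ • w = |γ| • w' := by
    intro w γ hw
    rcases le_total 0 γ with h | h
    · exact ⟨w, hw, by rw [abs_of_nonneg h]⟩
    · exact ⟨-w, H_neg hw, by rw [abs_of_nonpos h, smul_neg, neg_smul, neg_neg]⟩
  obtain ⟨u', hu', eu⟩ := key u α hu
  obtain ⟨v', hv', ev⟩ := key v β hv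
  rw [eu, ev]
  have h0 := abs_nonneg α
  have h1 := abs_nonneg β
  obtain ⟨s, hs⟩ : ∃ s, s = |α| + |β| := ⟨_, rfl⟩
  rcases eq_or_lt_of_le (add_nonneg h0 h1) with h2 | h2
  · have e1 : |α| = 0 := by linarith
    have e2 : |β| = 0 := by linarith
    rw [e1, e2]
    simpa using zero_mem hm
  · have h3 : (|α| / s) • u' + (|β| / s) • v' ∈ H m := by
      apply H_convex m hu' hv' (by rw [hs]; positivity) (by rw [hs]; positivity)
      rw [← add_div, hs, div_self h2.ne']
    have h4 := (H_convex m).smul_mem_of_zero_mem (zero_mem hm) h3 (t := s) ⟨by rw [hs]; exact h2.le, by rw [hs]; exact h⟩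
    have e : s • ((|α| / s) • u' + (|β| / s) • v') = |α| • u' + |β| • v' := by
      rw [smul_add, smul_smul, smul_smul, mul_div_cancel₀, mul_div_cancel₀] <;> rw [hs] <;> exact h2.ne'
    rwa [e] at h4

/-- the two constants -/
theorem consts {m : ℕ} (hm : 2 ≤ m) : ∃ c d : ℝ, pt m 1 = !₂[c, d] ∧ c ≤ 1 ∧ d ≤ 1 ∧
    1999 / 1000 ≤ c + d ∧ 998 / 1000 ≤ c ∧ 998 / 1000 ≤ d := by
  obtain ⟨h1, h2⟩ := frac (show 1 < m by omega) one_ne_zero
  refine ⟨1 - ((1 : ℕ) / (m : ℝ)) ^ 2 / 1000, 1 - (1 - (1 : ℕ) / (m : ℝ)) ^ 2 / 1000, ?_, ?_, ?_, ?_,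
    ?_, ?_⟩
  · unfold pt q
    rw [if_neg one_ne_zero]
  all_goals
    obtain ⟨t, ht⟩ : ∃ t, t = ((1 : ℕ) : ℝ) / m := ⟨_, rfl⟩
    rw [← ht] at h1 h2 ⊢
    nlinarith

theorem ball_sub {m : ℕ} (hm : 2 ≤ m) : Metric.ball (0 : Plane) (1 / 4) ⊆ H m := by
  intro x hx
  rw [mem_ball_zero_iff] at hx
  obtain ⟨c, d, hp, hc, hd, hcd, hc2, hd2⟩ := consts hm
  have h0 : |x 0| ≤ 1 / 4 := by
    have := PiLp.norm_apply_le x 0
    rw [Real.norm_eq_abs] at this
    linarith
  have h1 : |x 1| ≤ 1 / 4 := by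
    have := PiLp.norm_apply_le x 1
    rw [Real.norm_eq_abs] at this
    linarith
  have hpos : 0 < c + d := by linarith
  obtain ⟨β, hβ⟩ : ∃ β, β = (x 0 + x 1) / (c + d) := ⟨_, rfl⟩
  have hb : |β| ≤ 1 / 3 := by
    rw [hβ, abs_div, abs_of_pos hpos, div_le_iff₀ hpos]
    have := abs_add_le (x 0) (x 1)
    linarith
  have hbe : β * (c + d) = x 0 + x 1 := by rw [hβ]; field_simp
  have ha : |x 0 - β * c| ≤ 2 / 3 := by
    have h3 : |x 0 - β * c| ≤ |x 0| + |β * c| := abs_sub _ _
    rw [abs_mul] at h3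
    have h4 : |c| ≤ 1 := by rw [abs_le]; constructor <;> linarith
    have h5 : |β| * |c| ≤ 1 / 3 * 1 := mul_le_mul hb h4 (abs_nonneg _) (by norm_num)
    linarith
  have e : x = (x 0 - β * c) • pt m 0 + β • pt m 1 := by
    rw [hp]
    unfold pt
    rw [if_pos rfl]
    ext j
    fin_cases j
    · simp
    · simp
      linarith
  rw [e]
  exact comb_mem (by omega) (pt_mem (by omega)) (pt_mem (by omega)) (by linarith)

theorem int_nonempty {m : ℕ} (hm : 2 ≤ m) : (interior (H m)).Nonempty :=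
  ⟨0, mem_interior.2 ⟨_, ball_sub hm, Metric.isOpen_ball, Metric.mem_ball_self (by norm_num)⟩⟩

theorem closure_int {m : ℕ} (hm : 2 ≤ m) : closure (interior (H m)) = H m := by
  rw [(H_convex m).closure_interior_eq_closure_of_nonempty_interior (int_nonempty hm),
    (H_compact m).isClosed.closure_eq]

theorem isPoly {m : ℕ} (hm : 2 ≤ m) : IsPoly (2 * m) (interior (H m)) where
  nonempty := int_nonempty hm
  isOpen := isOpen_interior
  bounded := (H_compact m).isBounded.subset interior_subset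
  convex := (H_convex m).interior
  symm := by
    intro x hx
    have h1 := (Homeomorph.neg Plane).preimage_interior (H m)
    have h2 : (Homeomorph.neg Plane) ⁻¹' (H m) = H m := by
      ext y
      constructor
      · intro hy
        have := H_neg (show -y ∈ H m from hy)
        rwa [neg_neg] at this
      · intro hy
        exact H_neg hy
    rw [h2] at h1
    rw [← h1] at hx
    exact hx
  vertices := by
    rw [closure_int hm]
    unfold H
    rw [extremePoints_hull, Set.encard_coe_eq_coe_finsetCard, card_S]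

theorem polar_sub {m : ℕ} (hm : 2 ≤ m) {y : Plane} (hy : y ∈ polar (interior (H m))) {p : Plane}
    (hp : p ∈ H m) : inner ℝ y p ≤ 1 := by
  have hy : sSup ((fun z => inner ℝ y z) '' interior (H m)) < 1 := hy
  have hbdd : BddAbove ((fun z => inner ℝ y z) '' interior (H m)) := by
    have h1 : BddAbove ((fun z => inner ℝ y z) '' H m) :=
      ((H_compact m).image (by fun_prop)).bddAbove
    exact h1.mono (image_mono interior_subset)
  have h1 : interior (H m) ⊆ {z | inner ℝ y z ≤ 1} := by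
    intro z hz
    exact (le_csSup hbdd ⟨z, hz, rfl⟩).trans hy.le
  have h2 : IsClosed {z : Plane | inner ℝ y z ≤ 1} := isClosed_le (by fun_prop) continuous_const
  have h3 := closure_minimal h1 h2
  rw [closure_int hm] at h3
  exact h3 hp

theorem polar_vol {m : ℕ} (hm : 2 ≤ m) :
    volume (polar (interior (H m))) ≤ ENNReal.ofReal (4000 / 1999) := by
  obtain ⟨c, d, hp, hc, hd, hcd, hc2, hd2⟩ := consts hm
  let M : Matrix (Fin 2) (Fin 2) ℝ := !![1, -1; c, d]
  have hdet : M.det = c + d := by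
    rw [Matrix.det_fin_two]
    show 1 * d - -1 * c = _
    ring
  have hpos : 0 < c + d := by linarith
  have hne : LinearMap.det (Matrix.toLin' M) ≠ 0 := by
    rw [LinearMap.det_toLin', hdet]
    exact hpos.ne'
  have hsub : (WithLp.toLp 2 : (Fin 2 → ℝ) → Plane) ⁻¹' polar (interior (H m)) ⊆
      (Matrix.toLin' M) ⁻¹' (Icc (fun _ => -1) (fun _ => 1)) := by
    intro z hz
    have hz : (WithLp.toLp 2 z : Plane) ∈ polar (interior (H m)) := hz
    have a1 := polar_sub hm hz (pt_mem (show 0 < m by omega))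
    have a2 := polar_sub hm hz (H_neg (pt_mem (show 0 < m by omega)))
    have a3 := polar_sub hm hz (pt_mem (show 1 < m by omega))
    have a4 := polar_sub hm hz (H_neg (pt_mem (show 1 < m by omega)))
    rw [inner_neg_right] at a2 a4
    rw [hp] at a3 a4
    unfold pt at a1 a2
    rw [if_pos rfl] at a1 a2
    simp only [PiLp.inner_apply, Fin.sum_univ_two, Matrix.cons_val_zero,
      Matrix.cons_val_one, RCLike.inner_apply, conj_trivial] at a1 a2 a3 a4
    have e0 : Matrix.toLin' M z 0 = z 0 - z 1 := by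
      simp [M, Matrix.toLin'_apply, Matrix.mulVec, dotProduct, Fin.sum_univ_two]
      ring
    have e1 : Matrix.toLin' M z 1 = c * z 0 + d * z 1 := by
      simp [M, Matrix.toLin'_apply, Matrix.mulVec, dotProduct, Fin.sum_univ_two]
    show Matrix.toLin' M z ∈ Icc (fun _ => -1) (fun _ => 1)
    rw [mem_Icc, Pi.le_def, Pi.le_def]
    constructor
    · intro i
      fin_cases i
      · show -1 ≤ Matrix.toLin' M z 0
        rw [e0]; linarith
      · show -1 ≤ Matrix.toLin' M z 1
        rw [e1]; linarith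
    · intro i
      fin_cases i
      · show Matrix.toLin' M z 0 ≤ 1
        rw [e0]; linarith
      · show Matrix.toLin' M z 1 ≤ 1
        rw [e1]; linarith
  have hmp := PiLp.volume_preserving_toLp (Fin 2)
  have hemb : MeasurableEmbedding (WithLp.toLp 2 : (Fin 2 → ℝ) → Plane) :=
    (MeasurableEquiv.toLp 2 (Fin 2 → ℝ)).measurableEmbedding
  rw [← hmp.measure_preimage_emb hemb]
  refine (measure_mono hsub).trans ?_
  rw [Measure.addHaar_preimage_linearMap _ hne, LinearMap.det_toLin', hdet, Real.volume_Icc_pi]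
  rw [Fin.prod_univ_two, ← ENNReal.ofReal_mul (by norm_num), ← ENNReal.ofReal_mul (by positivity)]
  apply ENNReal.ofReal_le_ofReal
  rw [abs_of_pos (inv_pos.2 hpos)]
  have : (c + d)⁻¹ ≤ (1999 / 1000)⁻¹ := inv_anti₀ (by norm_num) hcd
  norm_num at this ⊢
  linarith

theorem J_poly {m : ℕ} (hm : 2 ≤ m) : J disk (interior (H m)) ≤
    ENNReal.ofReal ((184 / 25) / (Real.pi - 64 / 375) * Real.sqrt (4000 / 1999)) := by
  have h1 : cheeger (interior (H m)) disk ≤ ENNReal.ofReal ((184 / 25) / (Real.pi - 64 / 375)) :=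
    cheeger_le fun x hx => H_square (interior_subset hx)
  have h2 := polar_vol hm
  have hpi := Real.pi_gt_three
  unfold J
  calc cheeger (interior (H m)) disk * volume (polar (interior (H m))) ^ (1 / 2 : ℝ) ≤
      ENNReal.ofReal ((184 / 25) / (Real.pi - 64 / 375)) *
        ENNReal.ofReal (4000 / 1999) ^ (1 / 2 : ℝ) := by gcongr
    _ = _ := by
        rw [ENNReal.ofReal_mul (div_nonneg (by norm_num) (by linarith)), Real.sqrt_eq_rpow,
          ENNReal.ofReal_rpow_of_nonneg (by norm_num) (by norm_num)]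

theorem numeric {n : ℕ} (hn : 24 ≤ n) : (184 / 25) / (Real.pi - 64 / 375) * Real.sqrt (4000 / 1999) <
    2 * Real.sqrt (Real.pi * Real.cos (Real.pi / n) ^ 2) := by
  have hpi := Real.pi_gt_d6
  have hpi2 := Real.pi_lt_d6
  have hn' : (24 : ℝ) ≤ n := by exact_mod_cast hn
  have hn0 : (0 : ℝ) < n := by linarith
  have hcos : 1 - (3.141593 / 24) ^ 2 ≤ Real.cos (Real.pi / n) ^ 2 := by
    have h1 : Real.sin (Real.pi / n) ^ 2 ≤ (3.141593 / 24) ^ 2 := by
      have h2 : |Real.sin (Real.pi / n)| ≤ |Real.pi / n| := Real.abs_sin_le_abs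
      have h3 : |Real.pi / n| ≤ 3.141593 / 24 := by
        rw [abs_of_pos (by positivity)]
        exact div_le_div₀ (by norm_num) hpi2.le (by norm_num) hn'
      rw [← sq_abs]
      exact pow_le_pow_left₀ (abs_nonneg _) (h2.trans h3) 2
    have := Real.sin_sq_add_cos_sq (Real.pi / n)
    linarith
  have hA : 0 < Real.pi - 64 / 375 := by linarith
  have hl : (184 / 25) / (Real.pi - 64 / 375) * Real.sqrt (4000 / 1999) =
      Real.sqrt (((184 / 25) / (Real.pi - 64 / 375)) ^ 2 * (4000 / 1999)) := by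
    rw [Real.sqrt_mul (by positivity), Real.sqrt_sq (by positivity)]
  have hr : 2 * Real.sqrt (Real.pi * Real.cos (Real.pi / n) ^ 2) =
      Real.sqrt (4 * (Real.pi * Real.cos (Real.pi / n) ^ 2)) := by
    have h4 : Real.sqrt 4 = 2 := by
      rw [show (4 : ℝ) = 2 ^ 2 by norm_num]
      exact Real.sqrt_sq (by norm_num)
    rw [Real.sqrt_mul (by norm_num : (0 : ℝ) ≤ 4) (Real.pi * Real.cos (Real.pi / n) ^ 2), h4]
  rw [hl, hr]
  apply Real.sqrt_lt_sqrt (by positivity)
  have h1 : (184 / 25) / (Real.pi - 64 / 375) ≤ (184 / 25) / (3.141592 - 64 / 375) := by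
    apply div_le_div_of_nonneg_left (by norm_num) (by norm_num) (by linarith)
  have h2 : ((184 / 25) / (Real.pi - 64 / 375)) ^ 2 ≤ ((184 / 25) / (3.141592 - 64 / 375)) ^ 2 :=
    pow_le_pow_left₀ (by positivity) h1 2
  have h3 : 3.141592 * (1 - (3.141593 / 24) ^ 2) ≤ Real.pi * Real.cos (Real.pi / n) ^ 2 :=
    mul_le_mul hpi.le hcos (by norm_num) (by positivity)
  calc ((184 / 25) / (Real.pi - 64 / 375)) ^ 2 * (4000 / 1999) ≤
      ((184 / 25) / (3.141592 - 64 / 375)) ^ 2 * (4000 / 1999) := by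
        apply mul_le_mul_of_nonneg_right h2 (by norm_num)
    _ < 4 * (3.141592 * (1 - (3.141593 / 24) ^ 2)) := by norm_num
    _ ≤ _ := by linarith

/-- for every even `n ≥ 24` the regular polygon is not optimal -/
theorem main (n : ℕ) (hn : 24 ≤ n) (he : Even n) :
    ∃ P : Set Plane, IsPoly n P ∧ J disk P < J disk (regular n) := by
  obtain ⟨m, hm⟩ := he
  have hm2 : n = 2 * m := by omega
  refine ⟨interior (H m), by rw [hm2]; exact isPoly (by omega), ?_⟩
  refine lt_of_le_of_lt (J_poly (by omega)) (lt_of_lt_of_le ?_ (J_regular (by omega : 3 ≤ n)))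
  rw [ENNReal.ofReal_lt_ofReal_iff_of_nonneg]
  · exact numeric hn
  · have hpi := Real.pi_gt_three
    exact mul_nonneg (div_nonneg (by norm_num) (by linarith)) (Real.sqrt_nonneg _)

end Pool.Agent.K1H26.Cheeger
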