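import Pool.Agent.K1H26.Cheeger.Area

set_option autoImplicit false

namespace Pool.Agent.K1H26.Cheeger

open MeasureTheory Set

/-- the points near the corner `(1, 1)` -/
noncomputable def q (t : ℝ) : Plane := !₂[1 - t ^ 2 / 1000, 1 - (1 - t) ^ 2 / 1000]

/-- one half of the vertices -/
noncomputable def pt (m j : ℕ) : Plane := if j = 0 then !₂[1, -1] else q (j / m)

/-- the vertices -/
noncomputable def S (m : ℕ) : Finset Plane := by
  classical
  exact (Finset.range m).image (pt m) ∪ (Finset.range m).image (fun j => -pt m j)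

theorem mem_S {m : ℕ} {x : Plane} : x ∈ (S m : Set Plane) ↔ ∃ j < m, x = pt m j ∨ x = -pt m j := by
  classical
  unfold S
  simp only [Finset.coe_union, Finset.coe_image, Finset.coe_range, mem_union, mem_image, mem_Iio]
  constructor
  · rintro (⟨j, hj, rfl⟩ | ⟨j, hj, rfl⟩)
    · exact ⟨j, hj, Or.inl rfl⟩
    · exact ⟨j, hj, Or.inr rfl⟩
  · rintro ⟨j, hj, h | h⟩
    · exact Or.inl ⟨j, hj, h.symm⟩
    · exact Or.inr ⟨j, hj, h.symm⟩

/-- the exposing functionals -/
noncomputable def fn (m j : ℕ) (x : Plane) : ℝ :=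
  if j = 0 then x 0 - x 1 else (1 - (j : ℝ) / m) * x 0 + (j / m) * x 1

theorem fn_neg (m j : ℕ) (x : Plane) : fn m j (-x) = -fn m j x := by
  unfold fn
  split_ifs <;> simp <;> ring

theorem fn_lin (m j : ℕ) (x y : Plane) (a b : ℝ) :
    fn m j (a • x + b • y) = a * fn m j x + b * fn m j y := by
  unfold fn
  split_ifs <;> simp <;> ring

theorem frac {m j : ℕ} (hj : j < m) (h0 : j ≠ 0) : 0 < (j : ℝ) / m ∧ (j : ℝ) / m < 1 := by
  have h1 : (0 : ℝ) < j := by exact_mod_cast Nat.pos_of_ne_zero h0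
  have h2 : (j : ℝ) < m := by exact_mod_cast hj
  have h3 : (0 : ℝ) < m := h1.trans h2
  constructor
  · exact div_pos h1 h3
  · rw [div_lt_one h3]; exact h2

theorem fn_pos {m j : ℕ} (hj : j < m) : 0 < fn m j (pt m j) := by
  unfold fn pt
  split_ifs with h
  · simp
  · obtain ⟨h1, h2⟩ := frac hj h
    simp only [q, PiLp.toLp_apply, Matrix.cons_val_zero, Matrix.cons_val_one]
    obtain ⟨t, ht⟩ : ∃ t, t = (j : ℝ) / m := ⟨_, rfl⟩
    rw [← ht] at h1 h2 ⊢
    nlinarith [mul_pos h1 (sub_pos.2 h2), mul_pos (mul_pos h1 (sub_pos.2 h2)) h1,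
      mul_pos (mul_pos h1 (sub_pos.2 h2)) (sub_pos.2 h2)]

theorem fn_lt {m i j : ℕ} (hi : i < m) (hj : j < m) (hij : i ≠ j) :
    |fn m j (pt m i)| < fn m j (pt m j) := by
  unfold fn pt
  by_cases h0 : j = 0
  · have hi0 : i ≠ 0 := fun h => hij (h.trans h0.symm)
    obtain ⟨h1, h2⟩ := frac hi hi0
    simp only [if_pos h0, if_neg hi0, q, PiLp.toLp_apply, Matrix.cons_val_zero, Matrix.cons_val_one]
    rw [abs_lt]
    obtain ⟨t, ht⟩ : ∃ t, t = (i : ℝ) / m := ⟨_, rfl⟩
    rw [← ht] at h1 h2 ⊢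
    constructor <;> nlinarith
  · obtain ⟨h1, h2⟩ := frac hj h0
    obtain ⟨t, ht⟩ : ∃ t, t = (j : ℝ) / m := ⟨_, rfl⟩
    by_cases hi0 : i = 0
    · simp only [if_neg h0, if_pos hi0, q, PiLp.toLp_apply, Matrix.cons_val_zero, Matrix.cons_val_one]
      rw [← ht] at h1 h2 ⊢
      rw [abs_lt]
      constructor <;> nlinarith [mul_pos h1 (sub_pos.2 h2), mul_pos (mul_pos h1 (sub_pos.2 h2)) h1,
        mul_pos (mul_pos h1 (sub_pos.2 h2)) (sub_pos.2 h2)]
    · obtain ⟨h3, h4⟩ := frac hi hi0
      simp only [if_neg h0, if_neg hi0, q, PiLp.toLp_apply, Matrix.cons_val_zero, Matrix.cons_val_one]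
      obtain ⟨s, hs⟩ : ∃ s, s = (i : ℝ) / m := ⟨_, rfl⟩
      have hst : s ≠ t := by
        intro h
        rw [hs, ht] at h
        have hm : (m : ℝ) ≠ 0 := by
          have : 0 < m := by omega
          positivity
        rw [div_left_inj' hm] at h
        exact hij (by exact_mod_cast h)
      rw [← ht] at h1 h2 ⊢
      rw [← hs] at h3 h4 ⊢
      have h5 : 0 < (s - t) ^ 2 := by
        have := sub_ne_zero.2 hst
        positivity
      rw [abs_lt]
      constructor
      · nlinarith [mul_pos h1 (sub_pos.2 h2)]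
      · nlinarith [mul_pos h1 (sub_pos.2 h2)]

theorem avg_lt {a b u v c : ℝ} (ha : 0 < a) (hb : 0 < b) (hab : a + b = 1) (hu : u < c) (hv : v ≤ c) :
    a * u + b * v < c := by
  have e : c = a * c + b * c := by rw [← add_mul, hab, one_mul]
  have h1 := mul_lt_mul_of_pos_left hu ha
  have h2 := mul_le_mul_of_nonneg_left hv hb.le
  linarith

/-- a point with an exposing functional is an extreme point -/
theorem extreme_of {A : Set Plane} {p : Plane} (f : Plane → ℝ) (hp : p ∈ A)
    (hf : ∀ (x y : Plane) (a b : ℝ), f (a • x + b • y) = a * f x + b * f y)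
    (h : ∀ x ∈ A, x ≠ p → f x < f p) : p ∈ (convexHull ℝ A).extremePoints ℝ := by
  have hsub : convexHull ℝ A ⊆ {x | f x < f p ∨ x = p} := by
    apply convexHull_min
    · intro x hx
      by_cases hxp : x = p
      · exact Or.inr hxp
      · exact Or.inl (h x hx hxp)
    · intro x hx y hy a b ha hb hab
      have hx : f x < f p ∨ x = p := hx
      have hy : f y < f p ∨ y = p := hy
      show f (a • x + b • y) < f p ∨ a • x + b • y = p
      rcases eq_or_lt_of_le ha with ha0 | ha0
      · rw [← ha0] at hab ⊢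
        have hb1 : b = 1 := by linarith
        rw [hb1]
        simpa using hy
      rcases eq_or_lt_of_le hb with hb0 | hb0
      · rw [← hb0] at hab ⊢
        have ha1 : a = 1 := by linarith
        rw [ha1]
        simpa using hx
      rcases hx with hx | hx
      · left
        rw [hf]
        have hy' : f y ≤ f p := by
          rcases hy with h | h
          · exact h.le
          · rw [h]
        exact avg_lt ha0 hb0 hab hx hy'
      · rcases hy with hy | hy
        · left
          rw [hf, hx, add_comm]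
          exact avg_lt hb0 ha0 (by linarith) hy le_rfl
        · right
          rw [hx, hy, ← add_smul, hab, one_smul]
  rw [mem_extremePoints]
  refine ⟨subset_convexHull ℝ A hp, ?_⟩
  rintro x hx y hy ⟨a, b, ha, hb, hab, he⟩
  have h1 := hsub hx
  have h2 := hsub hy
  have h3 : f p = a * f x + b * f y := by rw [← hf, he]
  rcases h1 with h1 | h1
  · exfalso
    have h2' : f y ≤ f p := by
      rcases h2 with h | h
      · exact h.le
      · rw [h]
    exact absurd h3.symm (avg_lt ha hb hab h1 h2').ne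
  · refine ⟨h1, ?_⟩
    rcases h2 with h2 | h2
    · exfalso
      rw [h1, add_comm] at h3
      exact absurd h3.symm (avg_lt hb ha (by linarith) h2 le_rfl).ne
    · exact h2

theorem fn_exposes {m j : ℕ} (hj : j < m) : ∀ x ∈ (S m : Set Plane), x ≠ pt m j →
    fn m j x < fn m j (pt m j) := by
  intro x hx hne
  obtain ⟨i, hi, h | h⟩ := mem_S.1 hx
  · have hij : i ≠ j := by rintro rfl; exact hne h
    rw [h]
    exact (abs_lt.1 (fn_lt hi hj hij)).2
  · rw [h, fn_neg]
    by_cases hij : i = j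
    · rw [hij]; linarith [fn_pos hj]
    · linarith [(abs_lt.1 (fn_lt hi hj hij)).1]

theorem extremePoints_hull (m : ℕ) :
    (convexHull ℝ (S m : Set Plane)).extremePoints ℝ = (S m : Set Plane) := by
  apply Subset.antisymm extremePoints_convexHull_subset
  intro x hx
  obtain ⟨j, hj, h | h⟩ := mem_S.1 hx
  · rw [h] at hx ⊢
    exact extreme_of (fn m j) hx (fn_lin m j) (fn_exposes hj)
  · rw [h] at hx ⊢
    refine extreme_of (fun x => -fn m j x) hx ?_ ?_
    · intro x y a b
      show -fn m j _ = a * -fn m j x + b * -fn m j y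
      rw [fn_lin]; ring
    · intro y hy hne
      show -fn m j y < -fn m j (-pt m j)
      have h1 : -y ∈ (S m : Set Plane) := by
        obtain ⟨i, hi, h | h⟩ := mem_S.1 hy
        · exact mem_S.2 ⟨i, hi, Or.inr (by rw [h])⟩
        · exact mem_S.2 ⟨i, hi, Or.inl (by rw [h, neg_neg])⟩
      have h2 := fn_exposes hj (-y) h1 (fun h => hne (by rw [← h, neg_neg]))
      rw [fn_neg] at h2 ⊢
      linarith

theorem pt_inj {m i j : ℕ} (hi : i < m) (hj : j < m) (h : pt m i = pt m j) : i = j := by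
  by_contra hij
  have h1 := (abs_lt.1 (fn_lt hi hj hij)).2
  rw [h] at h1
  exact lt_irrefl _ h1

theorem pt_ne_neg {m i j : ℕ} (hi : i < m) (hj : j < m) : pt m i ≠ -pt m j := by
  intro h
  have h0 := fn_pos hj
  by_cases hij : i = j
  · rw [hij] at h
    have h2 : fn m j (pt m j) = -fn m j (pt m j) := by
      conv_lhs => rw [h]
      rw [fn_neg]
    linarith
  · have h1 := (abs_lt.1 (fn_lt hi hj hij)).1
    rw [h, fn_neg] at h1
    exact lt_irrefl _ h1

theorem card_S (m : ℕ) : (S m).card = 2 * m := by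
  classical
  unfold S
  rw [Finset.card_union_of_disjoint, Finset.card_image_of_injOn, Finset.card_image_of_injOn,
    Finset.card_range]
  · ring
  · intro i hi j hj h
    rw [Finset.coe_range, mem_Iio] at hi hj
    exact pt_inj hi hj (neg_injective h)
  · intro i hi j hj h
    rw [Finset.coe_range, mem_Iio] at hi hj
    exact pt_inj hi hj h
  · rw [Finset.disjoint_left]
    intro x hx hx2
    obtain ⟨i, hi, rfl⟩ := Finset.mem_image.1 hx
    obtain ⟨j, hj, h⟩ := Finset.mem_image.1 hx2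
    rw [Finset.mem_range] at hi hj
    exact pt_ne_neg hi hj h.symm

theorem S_neg {m : ℕ} {x : Plane} (hx : x ∈ (S m : Set Plane)) : -x ∈ (S m : Set Plane) := by
  obtain ⟨i, hi, h | h⟩ := mem_S.1 hx
  · exact mem_S.2 ⟨i, hi, Or.inr (by rw [h])⟩
  · exact mem_S.2 ⟨i, hi, Or.inl (by rw [h, neg_neg])⟩

/-- the closed polygon -/
noncomputable def H (m : ℕ) : Set Plane := convexHull ℝ (S m : Set Plane)

theorem H_convex (m : ℕ) : Convex ℝ (H m) := convex_convexHull ℝ _

theorem H_compact (m : ℕ) : IsCompact (H m) := (S m).finite_toSet.isCompact_convexHull ℝ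

theorem H_neg {m : ℕ} {x : Plane} (hx : x ∈ H m) : -x ∈ H m := by
  have h1 : H m ⊆ {x | -x ∈ H m} := by
    apply convexHull_min
    · intro x hx
      exact subset_convexHull ℝ _ (S_neg hx)
    · intro x hx y hy a b ha hb hab
      show -(a • x + b • y) ∈ H m
      have : -(a • x + b • y) = a • (-x) + b • (-y) := by
        rw [smul_neg, smul_neg, neg_add]
      rw [this]
      exact H_convex m hx hy ha hb hab
  exact h1 hx

theorem H_square {m : ℕ} {x : Plane} (hx : x ∈ H m) : |x 0| ≤ 1 ∧ |x 1| ≤ 1 := by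
  have h1 : H m ⊆ {x | |x 0| ≤ 1 ∧ |x 1| ≤ 1} := by
    apply convexHull_min
    · intro x hx
      have h2 : ∀ j < m, |pt m j 0| ≤ 1 ∧ |pt m j 1| ≤ 1 := by
        intro j hj
        unfold pt
        split_ifs with h
        · simp
        · obtain ⟨h1, h2⟩ := frac hj h
          obtain ⟨t, ht⟩ : ∃ t, t = (j : ℝ) / m := ⟨_, rfl⟩
          simp only [q, PiLp.toLp_apply, Matrix.cons_val_zero, Matrix.cons_val_one]
          rw [← ht] at h1 h2 ⊢
          rw [abs_le, abs_le]
          refine ⟨⟨?_, ?_⟩, ⟨?_, ?_⟩⟩ <;> nlinarith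
      obtain ⟨j, hj, h | h⟩ := mem_S.1 hx
      · rw [h]; exact h2 j hj
      · rw [h]
        show |(-pt m j) 0| ≤ 1 ∧ |(-pt m j) 1| ≤ 1
        simpa using h2 j hj
    · intro x hx y hy a b ha hb hab
      have hx : |x 0| ≤ 1 ∧ |x 1| ≤ 1 := hx
      have hy : |y 0| ≤ 1 ∧ |y 1| ≤ 1 := hy
      show |(a • x + b • y) 0| ≤ 1 ∧ |(a • x + b • y) 1| ≤ 1
      simp only [PiLp.add_apply, PiLp.smul_apply, smul_eq_mul]
      rw [abs_le, abs_le] at hx hy ⊢
      refine ⟨⟨?_, ?_⟩, ⟨?_, ?_⟩⟩ <;> nlinarith [hx.1.1, hx.1.2, hx.2.1, hx.2.2, hy.1.1, hy.1.2,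
        hy.2.1, hy.2.2]
  exact h1 hx

end Pool.Agent.K1H26.Cheeger
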