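import Pool.Agent.K1H26.Cheeger.Defs

set_option autoImplicit false

namespace Pool.Agent.K1H26.Cheeger

open MeasureTheory Set

/-- the truncated disk in coordinates -/
def D2 (a : ℝ) : Set (ℝ × ℝ) := {p | p.1 ^ 2 + p.2 ^ 2 < 1 ∧ |p.1| < a ∧ |p.2| < a}

/-- half of the length of a slice -/
noncomputable def len (a y : ℝ) : ℝ := min a (Real.sqrt (1 - y ^ 2))

theorem D2_eq {a : ℝ} (x y : ℝ) :
    (x, y) ∈ D2 a ↔ |y| < a ∧ |x| < len a y := by
  unfold D2 len
  show (x ^ 2 + y ^ 2 < 1 ∧ |x| < a ∧ |y| < a) ↔ _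
  rw [lt_min_iff, Real.lt_sqrt (abs_nonneg x), sq_abs]
  constructor
  · rintro ⟨h1, h2, h3⟩
    exact ⟨h3, h2, by linarith⟩
  · rintro ⟨h1, h2, h3⟩
    exact ⟨by linarith, h2, h1⟩

theorem len_pos {a y : ℝ} (ha0 : 0 < a) (ha1 : a < 1) (hy : |y| < a) : 0 < len a y := by
  unfold len
  refine lt_min ha0 (Real.sqrt_pos.2 ?_)
  have : y ^ 2 < 1 := by
    rw [sq_lt_one_iff_abs_lt_one]; linarith
  linarith

theorem D2_open (a : ℝ) : IsOpen (D2 a) := by
  have h1 : IsOpen {p : ℝ × ℝ | p.1 ^ 2 + p.2 ^ 2 < 1} := isOpen_lt (by fun_prop) (by fun_prop)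
  have h2 : IsOpen {p : ℝ × ℝ | |p.1| < a} := isOpen_lt continuous_fst.abs continuous_const
  have h3 : IsOpen {p : ℝ × ℝ | |p.2| < a} := isOpen_lt continuous_snd.abs continuous_const
  exact h1.inter (h2.inter h3)

theorem D2_vol (a : ℝ) : volume (D2 a) < ⊤ := by
  have h : D2 a ⊆ Icc (-1 : ℝ) 1 ×ˢ Icc (-1 : ℝ) 1 := by
    rintro ⟨x, y⟩ ⟨h, -, -⟩
    simp only at h
    constructor
    · show -1 ≤ x ∧ x ≤ 1
      constructor <;> nlinarith [sq_nonneg y]
    · show -1 ≤ y ∧ y ≤ 1
      constructor <;> nlinarith [sq_nonneg x]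
  refine lt_of_le_of_lt (measure_mono h) ?_
  exact (isCompact_Icc.prod isCompact_Icc).measure_lt_top

/-- the one-dimensional estimate -/
theorem slice_int {a : ℝ} (ha0 : 0 < a) (ha1 : a < 1) (u g : ℝ × ℝ → ℝ) (hg : Continuous g)
    (hu : ∀ x y, HasDerivAt (fun s => u (s, y)) (g (x, y)) x) (hb : ∀ p, |u p| ≤ 1) :
    ∫ p in D2 a, g p ≤ 4 * a := by
  have hI : IntegrableOn g (D2 a) volume := by
    have hK : IsCompact (closure (D2 a)) := by
      apply Bornology.IsBounded.isCompact_closure
      refine (Metric.isBounded_closedBall (x := (0 : ℝ × ℝ)) (r := 1)).subset ?_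
      rintro ⟨x, y⟩ ⟨h, -, -⟩
      simp only at h
      rw [mem_closedBall_zero_iff]
      rw [Prod.norm_def, Real.norm_eq_abs, Real.norm_eq_abs]
      apply max_le
      · rw [abs_le]; constructor <;> nlinarith [sq_nonneg y]
      · rw [abs_le]; constructor <;> nlinarith [sq_nonneg x]
    exact (hg.continuousOn.integrableOn_compact hK).mono_set subset_closure
  have hI2 : Integrable ((D2 a).indicator g) (volume.prod volume) :=
    (integrable_indicator_iff (D2_open a).measurableSet).2 hI
  have e1 : ∫ p in D2 a, g p = ∫ y, ∫ x, (D2 a).indicator g (x, y) := by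
    rw [← integral_indicator (D2_open a).measurableSet]
    exact integral_prod_symm _ hI2
  rw [e1]
  have hin : ∀ y, ∫ x, (D2 a).indicator g (x, y) ≤ (Ioo (-a) a).indicator (fun _ => (2 : ℝ)) y := by
    intro y
    by_cases hy : |y| < a
    · have hl := len_pos ha0 ha1 hy
      have e2 : (fun x => (D2 a).indicator g (x, y)) =
          (Ioo (-len a y) (len a y)).indicator (fun x => g (x, y)) := by
        funext x
        unfold Set.indicator
        have h1 := D2_eq (a := a) x y
        have h2 : x ∈ Ioo (-len a y) (len a y) ↔ |x| < len a y := by rw [mem_Ioo, abs_lt]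
        by_cases h3 : |x| < len a y
        · rw [if_pos (h1.2 ⟨hy, h3⟩), if_pos (h2.2 h3)]
        · rw [if_neg (fun h => h3 (h1.1 h).2), if_neg (fun h => h3 (h2.1 h))]
      rw [e2, integral_indicator measurableSet_Ioo]
      have h3 : ∫ x in Ioo (-len a y) (len a y), g (x, y) = u (len a y, y) - u (-len a y, y) := by
        rw [← integral_Ioc_eq_integral_Ioo, ← intervalIntegral.integral_of_le (by linarith)]
        exact intervalIntegral.integral_eq_sub_of_hasDerivAt (fun x _ => hu x y)
          ((hg.comp (by fun_prop)).intervalIntegrable _ _)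
      rw [h3, Set.indicator_of_mem (by rw [mem_Ioo]; exact abs_lt.1 hy)]
      have h4 := abs_le.1 (hb (len a y, y))
      have h5 := abs_le.1 (hb (-len a y, y))
      linarith [h4.2, h5.1]
    · have e2 : (fun x => (D2 a).indicator g (x, y)) = fun _ => 0 := by
        funext x
        rw [Set.indicator_of_notMem]
        intro h
        exact hy ((D2_eq (a := a) x y).1 h).1
      rw [e2, integral_zero]
      exact Set.indicator_nonneg (fun _ _ => by norm_num) _
  refine (integral_mono hI2.integral_prod_right ?_ hin).trans (le_of_eq ?_)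
  · rw [integrable_indicator_iff measurableSet_Ioo]
    exact integrableOn_const (by simp)
  · rw [integral_indicator measurableSet_Ioo, setIntegral_const, Measure.real, Real.volume_Ioo,
      ENNReal.toReal_ofReal (by linarith), smul_eq_mul]
    ring

/-- coordinates -/
noncomputable def φ (p : ℝ × ℝ) : Plane := !₂[p.1, p.2]

theorem φ_cont : Continuous φ := by
  unfold φ
  fun_prop

/-- coordinates as a measurable equivalence -/
noncomputable def coord : (ℝ × ℝ) ≃ᵐ Plane :=
  (MeasurableEquiv.finTwoArrow (α := ℝ)).symm.trans (MeasurableEquiv.toLp 2 (Fin 2 → ℝ))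

theorem coord_eq (p : ℝ × ℝ) : coord p = φ p := by
  rfl

theorem φ_mp : MeasurePreserving φ (volume : Measure (ℝ × ℝ)) (volume : Measure Plane) := by
  have h1 := (volume_preserving_finTwoArrow ℝ).symm
  have h2 := PiLp.volume_preserving_toLp (Fin 2)
  exact h2.comp h1

theorem φ_emb : MeasurableEmbedding φ := by
  have : φ = coord := by funext p; rw [coord_eq]
  rw [this]
  exact coord.measurableEmbedding

/-- the test set -/
def T (a : ℝ) : Set Plane := {x | (x 0, x 1) ∈ D2 a}

theorem T_pre (a : ℝ) : φ ⁻¹' (T a) = D2 a := by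
  ext p
  simp [T, φ]

theorem T_open (a : ℝ) : IsOpen (T a) := by
  have : T a = (fun x : Plane => (x 0, x 1)) ⁻¹' D2 a := rfl
  rw [this]
  exact (D2_open a).preimage (by fun_prop)

theorem T_vol (a : ℝ) : volume (T a) = volume (D2 a) := by
  rw [← T_pre a, φ_mp.measure_preimage (T_open a).measurableSet.nullMeasurableSet]

theorem T_sub (a : ℝ) : T a ⊆ disk := by
  rintro x ⟨h, -, -⟩
  unfold disk
  rw [mem_ball_zero_iff, EuclideanSpace.norm_eq, Fin.sum_univ_two, Real.norm_eq_abs,
    Real.norm_eq_abs, sq_abs, sq_abs]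
  simp only at h
  rw [Real.sqrt_lt' one_pos, one_pow]
  exact h

theorem perim_le {a : ℝ} (ha0 : 0 < a) (ha1 : a < 1) {K : Set Plane}
    (hK : ∀ x ∈ K, |x 0| ≤ 1 ∧ |x 1| ≤ 1) : perim K (T a) ≤ ENNReal.ofReal (8 * a) := by
  unfold perim
  refine iSup_le fun V => iSup_le fun hV1 => iSup_le fun _ => iSup_le fun hV3 => ?_
  apply ENNReal.ofReal_le_ofReal
  have hd : Differentiable ℝ V := hV1.differentiable (by norm_num)
  have hfc : Continuous (fderiv ℝ V) := hV1.continuous_fderiv (by norm_num)
  have hc : ∀ i : Fin 2, Continuous fun x => (fderiv ℝ V x (EuclideanSpace.single i 1)) i := by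
    intro i
    have h1 : Continuous fun x => fderiv ℝ V x (EuclideanSpace.single i 1) :=
      hfc.clm_apply continuous_const
    exact (continuous_apply i).comp ((PiLp.continuous_ofLp 2 _).comp h1)
  have e1 : ∫ x in T a, div V x = ∫ p in D2 a, div V (φ p) := by
    rw [← T_pre a]
    exact (φ_mp.setIntegral_preimage_emb φ_emb _ _).symm
  rw [e1]
  have e2 : ∀ p, div V (φ p) = (fderiv ℝ V (φ p) (EuclideanSpace.single 0 1)) 0 +
      (fderiv ℝ V (φ p) (EuclideanSpace.single 1 1)) 1 := by
    intro p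
    unfold div
    rw [Fin.sum_univ_two]
  simp only [e2]
  -- integrability
  have hint : ∀ g : ℝ × ℝ → ℝ, Continuous g → IntegrableOn g (D2 a) volume := by
    intro g hg
    have hK : IsCompact (closure (D2 a)) := by
      apply Bornology.IsBounded.isCompact_closure
      refine (Metric.isBounded_closedBall (x := (0 : ℝ × ℝ)) (r := 1)).subset ?_
      rintro ⟨x, y⟩ ⟨h, -, -⟩
      simp only at h
      rw [mem_closedBall_zero_iff]
      rw [Prod.norm_def, Real.norm_eq_abs, Real.norm_eq_abs]
      apply max_le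
      · rw [abs_le]; constructor <;> nlinarith [sq_nonneg y]
      · rw [abs_le]; constructor <;> nlinarith [sq_nonneg x]
    exact (hg.continuousOn.integrableOn_compact hK).mono_set subset_closure
  have e3 : ∫ p in D2 a, ((fderiv ℝ V (φ p) (EuclideanSpace.single 0 1)) 0 +
      (fderiv ℝ V (φ p) (EuclideanSpace.single 1 1)) 1) =
      (∫ p in D2 a, (fderiv ℝ V (φ p) (EuclideanSpace.single 0 1)) 0) +
      ∫ p in D2 a, (fderiv ℝ V (φ p) (EuclideanSpace.single 1 1)) 1 :=
    integral_add (hint _ ((hc 0).comp φ_cont)) (hint _ ((hc 1).comp φ_cont))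
  rw [e3]
  have hline : ∀ (i : Fin 2) (x v : Plane), HasDerivAt (fun s : ℝ => (V (x + s • v)) i)
      ((fderiv ℝ V x v) i) 0 := by
    intro i x v
    have h1 : HasFDerivAt V (fderiv ℝ V x) (x + (0 : ℝ) • v) := by
      rw [zero_smul, add_zero]; exact (hd x).hasFDerivAt
    have h2 : HasDerivAt (fun s : ℝ => x + s • v) v 0 := by
      have := ((hasDerivAt_id (0 : ℝ)).smul_const v).const_add x
      simpa using this
    have h3 := h1.comp_hasDerivAt (0 : ℝ) h2
    have h4 := (EuclideanSpace.proj (𝕜 := ℝ) i : Plane →L[ℝ] ℝ).hasFDerivAt.comp_hasDerivAt (0 : ℝ) h3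
    exact h4
  have b0 : ∫ p in D2 a, (fderiv ℝ V (φ p) (EuclideanSpace.single 0 1)) 0 ≤ 4 * a := by
    apply slice_int ha0 ha1 (fun p => (V (φ p)) 0) _ ((hc 0).comp φ_cont)
    · intro x y
      have h := hline 0 (φ (x, y)) (EuclideanSpace.single 0 1)
      have h2 : HasDerivAt (fun s : ℝ => s - x) 1 x := (hasDerivAt_id x).sub_const x
      have h3 : HasDerivAt (fun s : ℝ => (V (φ (x, y) + s • EuclideanSpace.single 0 1)) 0)
          ((fderiv ℝ V (φ (x, y)) (EuclideanSpace.single 0 1)) 0) (x - x) := by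
        rw [sub_self]; exact h
      have h4 := HasDerivAt.comp (h := fun s : ℝ => s - x) x h3 h2
      rw [mul_one] at h4
      refine h4.congr_of_eventuallyEq (Filter.Eventually.of_forall fun s => ?_)
      show (V (φ (s, y))) 0 = (V (φ (x, y) + (s - x) • EuclideanSpace.single 0 1)) 0
      have e : φ (s, y) = φ (x, y) + (s - x) • EuclideanSpace.single 0 1 := by
        ext j
        fin_cases j <;> simp [φ]
      rw [e]
    · intro p
      exact (hK _ (hV3 _)).1
  have b1 : ∫ p in D2 a, (fderiv ℝ V (φ p) (EuclideanSpace.single 1 1)) 1 ≤ 4 * a := by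
    have hsw : ∫ p in D2 a, (fderiv ℝ V (φ p) (EuclideanSpace.single 1 1)) 1 =
        ∫ p in D2 a, (fderiv ℝ V (φ p.swap) (EuclideanSpace.single 1 1)) 1 := by
      have h1 : MeasurePreserving (Prod.swap : ℝ × ℝ → ℝ × ℝ) volume volume :=
        Measure.measurePreserving_swap
      have h2 : Prod.swap ⁻¹' (D2 a) = D2 a := by
        ext ⟨x, y⟩
        simp only [D2, Set.mem_preimage, Prod.swap_prod_mk, Set.mem_ofPred_eq]
        constructor
        · rintro ⟨h, h', h''⟩; exact ⟨by linarith, h'', h'⟩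
        · rintro ⟨h, h', h''⟩; exact ⟨by linarith, h'', h'⟩
      have h3 := h1.setIntegral_preimage_emb (MeasurableEquiv.prodComm (α := ℝ) (β := ℝ)).measurableEmbedding
        (fun p => (fderiv ℝ V (φ p) (EuclideanSpace.single 1 1)) 1) (D2 a)
      rw [h2] at h3
      exact h3.symm
    rw [hsw]
    apply slice_int ha0 ha1 (fun p => (V (φ p.swap)) 1) _ (((hc 1).comp φ_cont).comp continuous_swap)
    · intro x y
      have h := hline 1 (φ (y, x)) (EuclideanSpace.single 1 1)
      have h2 : HasDerivAt (fun s : ℝ => s - x) 1 x := (hasDerivAt_id x).sub_const x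
      have h3 : HasDerivAt (fun s : ℝ => (V (φ (y, x) + s • EuclideanSpace.single 1 1)) 1)
          ((fderiv ℝ V (φ (y, x)) (EuclideanSpace.single 1 1)) 1) (x - x) := by
        rw [sub_self]; exact h
      have h4 := HasDerivAt.comp (h := fun s : ℝ => s - x) x h3 h2
      rw [mul_one] at h4
      refine h4.congr_of_eventuallyEq (Filter.Eventually.of_forall fun s => ?_)
      show (V (φ (y, s))) 1 = (V (φ (y, x) + (s - x) • EuclideanSpace.single 1 1)) 1
      have e : φ (y, s) = φ (y, x) + (s - x) • EuclideanSpace.single 1 1 := by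
        ext j
        fin_cases j <;> simp [φ]
      rw [e]
    · intro p
      exact (hK _ (hV3 _)).2
  linarith

end Pool.Agent.K1H26.Cheeger
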